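import Pool.Agent.Zk51.NK.Hom

/-!
# Homologically trivial cycles on the powers of a variety without odd cohomology

Let `X` be a smooth projective variety over `ℚ̄` without odd cohomology (more generally over any
field, with any Weil cohomology), let `b` be its total Betti number, let `h(n)`, a number or infinity, be
the dimension of `CH^*_hom (X^n)_ℚ` (all codimensions), and let `ρ(n)`, a number, be the dimension of the
space of all algebraic cycles on `X^n` modulo numerical equivalence, with rational coefficients. As the
odd cohomology of `X^n` vanishes for all `n`, Q1 predicts `h(n) = 0` for all `n`.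

**Theorem.** (1) The quotient `h(n) / ρ(n)` converges, for `n → ∞`, to a natural number `N` or to
infinity. `N = 0` if and only if Q1 holds for all powers of `X`.

(2) If `N` is finite then all groups `CH^*_hom (X^n)_ℚ` are finite-dimensional; the exterior power
`∧^(b + 1) h(X)` vanishes in the category of Chow motives, as Q1 predicts; each composition of a
homologically trivial correspondence between powers of `X` with `N` numerically trivial ones is zero
(in particular `y^(N + 1) = 0` for each homologically trivial self-correspondence `y` of `X^n`,
for all `n`); and there are numerical motives `M₁`, …, `M_s`, direct summands of numerical motives of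
powers of `X`, of total rank `N`, such that for all `n` the dimension of `CH^*_hom (X^n)_ℚ` is the
dimension of the space `⊕ Hom (M_i, h(X^n))` of morphisms modulo numerical equivalence.

(3) If `h(n) < ρ(n) / 2` for a single `n ≥ 128 (m + 1)^2 b^(2 m + 6)` then `CH^*_hom (X^m)_ℚ = 0`. In
particular `X` satisfies Q1, in all codimensions, if `h(n) < ρ(n) / 2` for one `n ≥ 512 b^8`.

So if Q1 fails for one variety `X` without odd cohomology then it fails for almost all powers of `X`,
and `CH^*_hom (X^n)_ℚ` is at least of half the size of the space of all cycles on `X^n` modulo numerical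
equivalence, for all `n ≥ 512 b^8`: it is not possible to have a few independent counterexamples.
No conjecture is assumed.

The setting. `C` is the category with objects the Chow motives over the base field with the Chow groups
`CH^*(X × Y)_ℚ` as morphisms (it is `ℚ`-linear, rigid, symmetric monoidal and idempotent complete, and the
endomorphisms of the unit object are the rational numbers, `IsReal`). `T = h(X)` is self-dual
(`ExactPairing T T`), `tp T n = h(X^n)`, and `𝟙_ C ⟶ tp T n` is `CH^*(X^n)_ℚ`. The maps `i` and `r` are
given by a rational point (or by a zero-cycle of degree one). `R` is the functor to super vector spaces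
given by the cohomology with coefficients extended to an algebraically closed field
(`SuperRealisation`), `R.par T = 𝟙 _` means that there is no odd cohomology. `homSub` is the space of the
homologically trivial classes, `NumTriv` means numerically trivial, `numRank ℚ (tp T n)` is `ρ(n)`, and
`asym (-1) T (b + 1)` is the projector to the exterior power.

Idea of the proof. The law for the dimensions of the values of additive functors on the powers of a
self-dual object (`Pool.Agent.N64.AF`) is applied to the functor `Z ↦ CH^*_hom(Z)`. The
structure theorem for finite `N` shows that compositions with `N` numerically trivial correspondences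
act by zero on `CH^*_hom` of all powers; by duality this is a statement on the correspondences
themselves. The projector to `∧^(b + 1) h(X)` is homologically trivial, therefore nilpotent, and zero.
-/

set_option autoImplicit false

namespace Pool.Agent.Results.MP_32dfd1_ag.SmallHomTrivialGroups

open CategoryTheory MonoidalCategory Module
open Pool.Agent.Y112.SR Pool.Agent.Y112.KD Pool.Agent.N64.AF Pool.Agent.Zk51.NK

universe v u w

/-- Homologically trivial cycles on the powers of a variety without odd cohomology. -/
theorem result {C : Type u} [Category.{v} C] [Preadditive C] [MonoidalCategory C]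
    [MonoidalPreadditive C] [SymmetricCategory C] [RightRigidCategory C]
    [Linear ℚ C] [MonoidalLinear ℚ C] [IsIdempotentComplete C]
    {K : Type w} [Field K] [IsAlgClosed K] [Algebra ℚ K] (R : SuperRealisation C K)
    (hR : IsReal ℚ R) (T : C) [ExactPairing T T] (hT : R.par T = 𝟙 _)
    (i : 𝟙_ C ⟶ T) (r : T ⟶ 𝟙_ C) (hir : i ≫ r = 𝟙 _) :
    (∃ N : ℕ∞, RatioTo ℚ T (fun n => dimE ℚ (homSub hR (𝟙_ C) (tp T n))) N ∧
      (N = 0 ↔ ∀ (a b : ℕ) (f : tp T a ⟶ tp T b), R.H.map f = 0 → f = 0) ∧
      ∀ k : ℕ, N = k → (∀ n, Module.Finite ℚ (homSub hR (𝟙_ C) (tp T n))) ∧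
        asym (-1) T (bt R T + 1) = 0 ∧
        (∀ (a b c : ℕ) (g : tp T a ⟶ tp T b) (f : tp T b ⟶ tp T c), R.H.map g = 0 →
          NumPow T k f → g ≫ f = 0) ∧
        ∃ (ι : Type) (_ : Fintype ι) (m r : ι → ℕ) (e : ∀ i, tp T (m i) ⟶ tp T (m i)),
          (∀ i, NumIdem (e i) ∧ IsRk R (e i) (r i) ∧ 0 < r i) ∧ ∑ i, r i = k ∧
          ∀ n, finrank ℚ (homSub hR (𝟙_ C) (tp T n)) = ∑ i, nr ℚ (e i) (𝟙 (tp T n))) ∧
    ∀ m n : ℕ, 128 * (m + 1) ^ 2 * bt R T ^ (2 * m + 6) ≤ n →
      2 * dimE ℚ (homSub hR (𝟙_ C) (tp T n)) < numRank ℚ (tp T n) →
        ∀ α : 𝟙_ C ⟶ tp T m, R.H.map α = 0 → α = 0 := by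
  have h : IsPow ℚ R T := ⟨hR, ⟨𝟙 T, by
    rw [hT, CategoryTheory.Functor.map_id, two_smul]⟩, i, r, hir⟩
  refine ⟨?_, fun m n hn hlt α hα => hom_explicit h hn hlt α hα⟩
  obtain ⟨N, h1, h2, h3⟩ := hom_ratio h
  refine ⟨N, h1, h2, fun k hk => ?_⟩
  obtain ⟨h4, h5, h6⟩ := h3 k hk
  refine ⟨h4, asym_zero_even hR hT fun n y hy => ⟨k + 1, ?_⟩, h5, h6⟩
  rw [pow_succ]
  exact h5 n n n y _ hy (numPow_power hR hy k)

end Pool.Agent.Results.MP_32dfd1_ag.SmallHomTrivialGroups
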